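import Pool.Agent.Q170.Panel.Walk

/-!
# Paneled polyhedra cut along a matching
-/

set_option autoImplicit false

open Set Filter Topology

namespace Pool.Agent.Q170.Panel

variable {I : Type*}

/-- The set given by the inequalities `⟨n i, x⟩ ≤ b i`. -/
def body (n : I → E) (b : I → ℝ) : Set E := {x | ∀ i, inner ℝ (n i) x ≤ b i}

/-- The `i`-th face (panel). -/
def face (n : I → E) (b : I → ℝ) (i : I) : Set E := {x ∈ body n b | inner ℝ (n i) x = b i}

/-- `body n b` is a convex polyhedron with the polygonal faces `face n b i`, one for every `i`. -/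
structure IsPolyhedron (n : I → E) (b : I → ℝ) : Prop where
  bounded : Bornology.IsBounded (body n b)
  solid : (interior (body n b)).Nonempty
  normal : ∀ i, n i ≠ 0
  polygon : ∀ i, ∃ p : Fin 3 → E, AffineIndependent ℝ p ∧ ∀ k, p k ∈ face n b i
  distinct : ∀ i j, face n b i = face n b j → i = j

/-- The edges: the nondegenerate intersections of two different faces. -/
def edges (n : I → E) (b : I → ℝ) : Set (Set E) :=
  {e | ∃ i j, i ≠ j ∧ e = face n b i ∩ face n b j ∧ e.Nontrivial}

/-- A matching: a set of edges no two of which share an endpoint. -/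
def IsMatching (n : I → E) (b : I → ℝ) (M : Set (Set E)) : Prop :=
  M ⊆ edges n b ∧ ∀ e ∈ M, ∀ e' ∈ M, e ≠ e' →
    Disjoint (e.extremePoints ℝ) (e'.extremePoints ℝ)

/-- The motions of the paneled polyhedron cut along the edges in `M`. -/
structure IsMotion (n : I → E) (b : I → ℝ) (M : Set (Set E))
    (g : unitInterval → I → (E ≃ᵃⁱ[ℝ] E)) : Prop where
  cont : ∀ i x, Continuous fun t => g t i x
  start : ∀ i x, g 0 i x = x
  hinge : ∀ i j, i ≠ j → face n b i ∩ face n b j ∈ edges n b → face n b i ∩ face n b j ∉ M →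
    ∀ t, ∀ x ∈ face n b i ∩ face n b j, g t i x = g t j x

/-- Rigidity of the paneled polyhedron cut along the edges in `M`. -/
def Rigid (n : I → E) (b : I → ℝ) (M : Set (Set E)) : Prop :=
  ∀ g, IsMotion n b M g → ∀ t, ∃ h : E ≃ᵃⁱ[ℝ] E, ∀ i, ∀ x ∈ face n b i, g t i x = h x

theorem body_closed (n : I → E) (b : I → ℝ) : IsClosed (body n b) := by
  have : body n b = ⋂ i, {x | inner ℝ (n i) x ≤ b i} := by ext x; simp [body]
  rw [this]
  exact isClosed_iInter fun i => isClosed_le (by fun_prop) continuous_const

theorem body_convex (n : I → E) (b : I → ℝ) : Convex ℝ (body n b) := by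
  intro x hx y hy s t hs ht hst i
  have h1 := hx i
  have h2 := hy i
  rw [inner_add_right, inner_smul_right, inner_smul_right]
  calc s * inner ℝ (n i) x + t * inner ℝ (n i) y ≤ s * b i + t * b i := by gcongr
    _ = b i := by rw [← add_mul, hst, one_mul]

theorem face_closed (n : I → E) (b : I → ℝ) (i : I) : IsClosed (face n b i) :=
  (body_closed n b).inter (isClosed_eq (by fun_prop) continuous_const)

theorem face_convex (n : I → E) (b : I → ℝ) (i : I) : Convex ℝ (face n b i) := by
  intro x hx y hy s t hs ht hst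
  refine ⟨body_convex n b hx.1 hy.1 hs ht hst, ?_⟩
  change inner ℝ (n i) (s • x + t • y) = b i
  rw [inner_add_right, inner_smul_right, inner_smul_right, hx.2, hy.2, ← add_mul, hst, one_mul]

theorem face_extreme (n : I → E) (b : I → ℝ) (i : I) : IsExtreme ℝ (body n b) (face n b i) := by
  refine ⟨fun x hx => hx.1, ?_⟩
  intro x hx y hy z hz hzs
  obtain ⟨s, t, hs, ht, hst, rfl⟩ := hzs
  refine ⟨hx, ?_⟩
  have h1 := hx i
  have h2 := hy i
  have h3 : inner ℝ (n i) (s • x + t • y) = b i := hz.2
  rw [inner_add_right, inner_smul_right, inner_smul_right] at h3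
  by_contra hne
  have h4 : inner ℝ (n i) x < b i := lt_of_le_of_ne h1 hne
  have h5 : s * inner ℝ (n i) x < s * b i := mul_lt_mul_of_pos_left h4 hs
  have h6 : t * inner ℝ (n i) y ≤ t * b i := mul_le_mul_of_nonneg_left h2 ht.le
  have h7 : s * b i + t * b i = b i := by rw [← add_mul, hst, one_mul]
  linarith

/-- Isometries which agree on a set agree on its closed convex hull. -/
theorem eqOn_hull {g h : E ≃ᵃⁱ[ℝ] E} {s : Set E} (hs : ∀ x ∈ s, g x = h x) :
    ∀ x ∈ closure (convexHull ℝ s), g x = h x := by
  have hconv : Convex ℝ {x | g x = h x} := by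
    intro x hx y hy a b _ _ hab
    have hx : g x = h x := hx
    have hy : g y = h y := hy
    change g (a • x + b • y) = h (a • x + b • y)
    have h1 := Convex.combo_affine_apply (f := g.toAffineEquiv.toAffineMap) (x := x) (y := y) hab
    have h2 := Convex.combo_affine_apply (f := h.toAffineEquiv.toAffineMap) (x := x) (y := y) hab
    have h1' : g (a • x + b • y) = a • g x + b • g y := h1
    have h2' : h (a • x + b • y) = a • h x + b • h y := h2
    rw [h1', h2', hx, hy]
  have hcl : IsClosed {x | g x = h x} := isClosed_eq g.continuous h.continuous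
  exact fun x hx => closure_minimal (convexHull_min (fun x hx => hs x hx) hconv) hcl hx

theorem vertex [Finite I] {n : I → E} {b : I → ℝ} (hP : IsPolyhedron n b) {X : Type*} (g : I → X)
    {p q : I} (hpq : p ≠ q) {v : E} (hv : v ∈ (face n b p ∩ face n b q).extremePoints ℝ)
    (hnt : (face n b p ∩ face n b q).Nontrivial)
    (H : ∀ i j, i ≠ j → face n b i ∩ face n b j ∈ edges n b → v ∈ face n b i ∩ face n b j →
      face n b i ∩ face n b j ≠ face n b p ∩ face n b q → g i = g j) : g p = g q := by
  obtain ⟨o, ho⟩ := hP.solid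
  have hc : ∀ i, 0 < b i - inner ℝ (n i) o := by
    intro i
    obtain ⟨r, hr, hball⟩ := Metric.isOpen_iff.1 isOpen_interior o ho
    have hn := norm_pos_iff.2 (hP.normal i)
    have h1 : o + (r / (2 * ‖n i‖)) • n i ∈ body n b := by
      apply interior_subset
      apply hball
      rw [Metric.mem_ball, dist_eq_norm, add_sub_cancel_left, norm_smul, Real.norm_eq_abs,
        abs_of_pos (by positivity)]
      have : r / (2 * ‖n i‖) * ‖n i‖ = r / 2 := by field_simp
      rw [this]; linarith
    have h2 := h1 i
    rw [inner_add_right, inner_smul_right, real_inner_self_eq_norm_sq] at h2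
    have h3 : 0 < r / (2 * ‖n i‖) * ‖n i‖ ^ 2 := by positivity
    linarith
  set L : I → E →ₗ[ℝ] ℝ := fun i => (b i - inner ℝ (n i) o)⁻¹ • (innerSL ℝ (n i)).toLinearMap
    with hL
  have hLe : ∀ i x, L i (x - o) = (inner ℝ (n i) x - inner ℝ (n i) o) /
      (b i - inner ℝ (n i) o) := by
    intro i x
    simp only [hL, LinearMap.smul_apply, ContinuousLinearMap.coe_coe, innerSL_apply_apply,
      smul_eq_mul, inner_sub_right]
    rw [div_eq_inv_mul]
  have hLe1 : ∀ i x, L i (x - o) ≤ 1 ↔ inner ℝ (n i) x ≤ b i := by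
    intro i x
    rw [hLe, div_le_one (hc i)]
    constructor <;> intro h <;> linarith
  have hLe2 : ∀ i x, L i (x - o) = 1 ↔ inner ℝ (n i) x = b i := by
    intro i x
    rw [hLe, div_eq_one_iff_eq (hc i).ne']
    constructor <;> intro h <;> linarith
  have hmem : ∀ i x, x ∈ face n b i ↔ (∀ k, L k (x - o) ≤ 1) ∧ L i (x - o) = 1 := by
    intro i x
    rw [hLe2]
    simp only [hLe1]
    rfl
  have hvm : v ∈ face n b p ∩ face n b q := extremePoints_subset hv
  obtain ⟨x, hx, hxv⟩ := hnt.exists_ne v
  have hvp := (hmem p v).1 hvm.1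
  have hvq := (hmem q v).1 hvm.2
  have hxp := (hmem p x).1 hx.1
  have hxq := (hmem q x).1 hx.2
  -- third points
  have third : ∀ i, v ∈ face n b i → ∃ z ∈ face n b i, ∀ t : ℝ, (z - o) - (v - o) ≠ t • (x - v) := by
    intro i _
    obtain ⟨a, ha, hmem'⟩ := hP.polygon i
    by_contra hcon
    push Not at hcon
    have hcol : Collinear ℝ (Set.range a) := by
      rw [collinear_iff_exists_forall_eq_smul_vadd]
      refine ⟨v, x - v, ?_⟩
      rintro _ ⟨k, rfl⟩
      obtain ⟨t, ht⟩ := hcon (a k) (hmem' k)
      refine ⟨t, ?_⟩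
      rw [vadd_eq_add, ← ht]
      abel
    exact (affineIndependent_iff_not_collinear.1 ha) hcol
  obtain ⟨z, hz, hzt⟩ := third p hvm.1
  obtain ⟨z', hz', hzt'⟩ := third q hvm.2
  have hzp := (hmem p z).1 hz
  have hzq := (hmem q z').1 hz'
  refine walk L g (u := v - o) (d := x - v) (z := z - o) (z' := z' - o) hvp.1 hvp.2 hvq.2 ?_ ?_
    (sub_ne_zero.2 hxv) hzp.1 hzp.2 hzt hzq.1 hzq.2 hzt' ?_ ?_ ?_
  · have : x - v = (x - o) - (v - o) := by abel
    rw [this, map_sub, hxp.2, hvp.2, sub_self]
  · have : x - v = (x - o) - (v - o) := by abel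
    rw [this, map_sub, hxq.2, hvq.2, sub_self]
  · intro h
    apply hpq
    apply hP.distinct
    ext y
    rw [hmem, hmem, h]
  · intro t ht hall
    have h1 : v + t • (x - v) ∈ face n b p ∩ face n b q := by
      have e : v + t • (x - v) - o = (v - o) + t • (x - v) := by abel
      have ep : L p (x - v) = 0 := by
        have : x - v = (x - o) - (v - o) := by abel
        rw [this, map_sub, hxp.2, hvp.2, sub_self]
      have eq : L q (x - v) = 0 := by
        have : x - v = (x - o) - (v - o) := by abel
        rw [this, map_sub, hxq.2, hvq.2, sub_self]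
      constructor
      · rw [hmem, e]
        exact ⟨hall, by rw [map_add, map_smul, ep, hvp.2, smul_zero, add_zero]⟩
      · rw [hmem, e]
        exact ⟨hall, by rw [map_add, map_smul, eq, hvq.2, smul_zero, add_zero]⟩
    have h2 : v ∈ openSegment ℝ (v + t • (x - v)) x := by
      have h1t : 0 < 1 - t := by linarith
      refine ⟨1 / (1 - t), -t / (1 - t), by positivity, div_pos (by linarith) h1t, ?_, ?_⟩
      · field_simp
        ring
      · have ha : 1 / (1 - t) * (1 - t) = 1 := by field_simp
        have hb : 1 / (1 - t) * t + -t / (1 - t) = 0 := by field_simp; ring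
        have e : (1 / (1 - t)) • (v + t • (x - v)) + (-t / (1 - t)) • x =
            (1 / (1 - t) * (1 - t)) • v + (1 / (1 - t) * t + -t / (1 - t)) • x := by module
        rw [e, ha, hb, one_smul, zero_smul, add_zero]
    have h3 := hv.2 h1 hx h2
    have h4 : t • (x - v) = 0 := by
      have := sub_eq_zero.2 h3
      rwa [add_sub_cancel_left] at this
    rcases smul_eq_zero.1 h4 with h5 | h5
    · linarith
    · exact hxv (sub_eq_zero.1 h5)
  · intro i j hi hj y hy hyk hyi hyj hyn
    by_cases hij : i = j
    · rw [hij]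
    have hvi : v ∈ face n b i := (hmem i v).2 ⟨hvp.1, hi⟩
    have hvj : v ∈ face n b j := (hmem j v).2 ⟨hvp.1, hj⟩
    have hyo : y = (y + o) - o := by abel
    have hyfi : y + o ∈ face n b i := (hmem i _).2 (by rw [← hyo]; exact ⟨hyk, hyi⟩)
    have hyfj : y + o ∈ face n b j := (hmem j _).2 (by rw [← hyo]; exact ⟨hyk, hyj⟩)
    have hyv : y + o ≠ v := fun h => hy (by rw [← h]; abel)
    apply H i j hij ⟨i, j, hij, rfl, ⟨y + o, ⟨hyfi, hyfj⟩, v, ⟨hvi, hvj⟩, hyv⟩⟩ ⟨hvi, hvj⟩
    intro heq
    have hy2 : y + o ∈ face n b p ∩ face n b q := by rw [← heq]; exact ⟨hyfi, hyfj⟩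
    have h1 := ((hmem p _).1 hy2.1).2
    have h2 := ((hmem q _).1 hy2.2).2
    rw [← hyo] at h1 h2
    rcases hyn with h | h
    · exact h h1
    · exact h h2

/-- Cutting along a matching does not change the motions. -/
theorem motion_iff [Finite I] {n : I → E} {b : I → ℝ} (hP : IsPolyhedron n b) {M : Set (Set E)}
    (hM : IsMatching n b M) (g : unitInterval → I → (E ≃ᵃⁱ[ℝ] E)) :
    IsMotion n b M g ↔ IsMotion n b ∅ g := by
  constructor
  · intro hg
    refine ⟨hg.cont, hg.start, ?_⟩
    intro p q hpq he _ t
    by_cases hpM : face n b p ∩ face n b q ∈ M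
    · have hcomp : IsCompact (face n b p ∩ face n b q) :=
        Metric.isCompact_of_isClosed_isBounded ((face_closed n b p).inter (face_closed n b q))
          (hP.bounded.subset fun x hx => hx.1.1)
      have hconv : Convex ℝ (face n b p ∩ face n b q) :=
        (face_convex n b p).inter (face_convex n b q)
      have hext : ∀ i j, IsExtreme ℝ (body n b) (face n b i ∩ face n b j) := fun i j =>
        (face_extreme n b i).inter (face_extreme n b j)
      have key : ∀ v ∈ (face n b p ∩ face n b q).extremePoints ℝ, g t p v = g t q v := by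
        intro v hv
        obtain ⟨_, _, _, _, hnt⟩ := he
        apply vertex hP (fun i => g t i v) hpq hv hnt
        intro i j hij hij' hvij hne
        by_cases hijM : face n b i ∩ face n b j ∈ M
        · exfalso
          have hdis := hM.2 _ hijM _ hpM hne
          have hv2 : v ∈ (face n b i ∩ face n b j).extremePoints ℝ :=
            inter_extremePoints_subset_extremePoints_of_subset (hext i j).1
              ⟨hvij, (hext p q).extremePoints_subset_extremePoints hv⟩
          exact Set.disjoint_left.1 hdis hv2 hv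
        · exact hg.hinge i j hij hij' hijM t v hvij
      intro x hx
      rw [← closure_convexHull_extremePoints hcomp hconv] at hx
      exact eqOn_hull key x hx
    · exact hg.hinge p q hpq he hpM t
  · intro hg
    exact ⟨hg.cont, hg.start, fun i j hij he _ => hg.hinge i j hij he (notMem_empty _)⟩

end Pool.Agent.Q170.Panel
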