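import Mathlib

/-!
# Walking around a vertex of a convex polyhedron
-/

set_option autoImplicit false

open Set Filter Topology

namespace Pool.Agent.Q170.Panel

/-- Euclidean three-space. -/
abbrev E := EuclideanSpace ℝ (Fin 3)

theorem slit_preconnected : IsPreconnected {p : ℝ × ℝ | ¬ (p.2 = 0 ∧ 0 ≤ p.1)} := by
  have hs : StarConvex ℝ ((-1, 0) : ℝ × ℝ) {p : ℝ × ℝ | ¬ (p.2 = 0 ∧ 0 ≤ p.1)} := by
    intro p hp a b ha hb hab h
    have h1 : a * 0 + b * p.2 = 0 := h.1
    have h2 : 0 ≤ a * (-1) + b * p.1 := h.2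
    have hp : ¬ (p.2 = 0 ∧ 0 ≤ p.1) := hp
    rw [mul_zero, zero_add] at h1
    rcases mul_eq_zero.1 h1 with h1 | h1
    · rw [h1] at h2 hab
      linarith
    · have hp' : p.1 < 0 := by
        by_contra hcon
        exact hp ⟨h1, not_lt.1 hcon⟩
      rcases hb.eq_or_lt with hb0 | hb0
      · rw [← hb0] at h2 hab
        linarith
      · nlinarith
  have hne : ((-1, 0) : ℝ × ℝ) ∈ {p : ℝ × ℝ | ¬ (p.2 = 0 ∧ 0 ≤ p.1)} :=
    fun h => by have := h.2; norm_num at this
  exact (hs.isPathConnected hne).isConnected.isPreconnected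

theorem walk {I X : Type*} [Finite I] (L : I → E →ₗ[ℝ] ℝ) (g : I → X) {a b : I} {u d z z' : E}
    (hu : ∀ i, L i u ≤ 1) (hau : L a u = 1) (hbu : L b u = 1)
    (had : L a d = 0) (hbd : L b d = 0) (hd : d ≠ 0)
    (hz : ∀ i, L i z ≤ 1) (haz : L a z = 1) (hzd : ∀ t : ℝ, z - u ≠ t • d)
    (hz' : ∀ i, L i z' ≤ 1) (hbz : L b z' = 1) (hzd' : ∀ t : ℝ, z' - u ≠ t • d)
    (hab : L a ≠ L b)
    (hext : ∀ t : ℝ, t < 0 → ¬ ∀ i, L i (u + t • d) ≤ 1)
    (H : ∀ i j, L i u = 1 → L j u = 1 → ∀ y, y ≠ u → (∀ k, L k y ≤ 1) → L i y = 1 → L j y = 1 →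
      (L a y ≠ 1 ∨ L b y ≠ 1) → g i = g j) : g a = g b := by
  classical
  obtain ⟨w, hw⟩ : ∃ w : E, w = z - u := ⟨_, rfl⟩
  have haw : L a w = 0 := by rw [hw, map_sub, haz, hau, sub_self]
  have ind : ∀ x y t : ℝ, x • u + y • d + t • w = 0 → x = 0 ∧ y = 0 ∧ t = 0 := by
    intro x y t h
    have h1 := congrArg (L a) h
    simp only [map_add, map_smul, hau, had, haw, map_zero, smul_eq_mul, mul_one, mul_zero,
      add_zero] at h1
    rw [h1, zero_smul, zero_add] at h
    by_cases ht : t = 0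
    · rw [ht, zero_smul, add_zero] at h
      exact ⟨h1, (smul_eq_zero.1 h).resolve_right hd, ht⟩
    · exfalso
      apply hzd (-(t⁻¹ * y))
      have h2 : t • w = -(y • d) := by
        rw [eq_neg_iff_add_eq_zero, add_comm]; exact h
      calc z - u = w := hw.symm
        _ = t⁻¹ • (t • w) := by rw [smul_smul, inv_mul_cancel₀ ht, one_smul]
        _ = -(t⁻¹ * y) • d := by rw [h2, smul_neg, smul_smul, neg_smul]
  have hli : LinearIndependent ℝ ![u, d, w] := by
    rw [Fintype.linearIndependent_iff]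
    intro c hc
    rw [Fin.sum_univ_three] at hc
    obtain ⟨h0, h1, h2⟩ := ind _ _ _ hc
    intro i
    fin_cases i
    · exact h0
    · exact h1
    · exact h2
  have hspan : Submodule.span ℝ (Set.range ![u, d, w]) = ⊤ :=
    hli.span_eq_top_of_card_eq_finrank (by simp)
  have hrep : ∀ x : E, ∃ α β γ : ℝ, α • u + β • d + γ • w = x := by
    intro x
    have hx : x ∈ Submodule.span ℝ (Set.range ![u, d, w]) := by rw [hspan]; trivial
    have hr : Set.range ![u, d, w] = {u, d, w} := by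
      ext y
      simp only [mem_range, mem_insert_iff, mem_singleton_iff]
      constructor
      · rintro ⟨i, rfl⟩
        fin_cases i <;> simp
      · rintro (rfl | rfl | rfl)
        · exact ⟨0, rfl⟩
        · exact ⟨1, rfl⟩
        · exact ⟨2, rfl⟩
    rw [hr, Submodule.mem_span_triple] at hx
    obtain ⟨α, β, γ, h⟩ := hx
    exact ⟨α, β, γ, h⟩
  -- the functionals in the plane
  set f : I → ℝ × ℝ → ℝ := fun i p => p.1 * L i d + p.2 * L i w with hf
  have hfL : ∀ i p, L i (p.1 • d + p.2 • w) = f i p := by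
    intro i p
    simp only [hf, map_add, map_smul, smul_eq_mul]
  have hfc : ∀ i, Continuous (f i) := fun i => by fun_prop
  set A : I → Set (ℝ × ℝ) := fun i => {p | ∀ j, L j u = 1 → f j p ≤ f i p} with hA
  have hAc : ∀ i, IsClosed (A i) := by
    intro i
    have : A i = ⋂ j, {p | L j u = 1 → f j p ≤ f i p} := by
      ext p; simp [hA]
    rw [this]
    apply isClosed_iInter
    intro j
    by_cases hj : L j u = 1
    · have : {p | L j u = 1 → f j p ≤ f i p} = {p | f j p ≤ f i p} := by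
        ext p; simp [hj]
      rw [this]
      exact isClosed_le (hfc j) (hfc i)
    · have : {p | L j u = 1 → f j p ≤ f i p} = univ := by
        ext p; simp [hj]
      rw [this]
      exact isClosed_univ
  by_contra hne
  obtain ⟨D1, hD1⟩ : ∃ D : Set (ℝ × ℝ), D = ⋃ i, ⋃ _ : L i u = 1 ∧ g i = g a, A i := ⟨_, rfl⟩
  obtain ⟨D2, hD2⟩ : ∃ D : Set (ℝ × ℝ), D = ⋃ i, ⋃ _ : L i u = 1 ∧ g i ≠ g a, A i := ⟨_, rfl⟩
  have hc1 : IsClosed D1 := by
    rw [hD1]
    exact isClosed_iUnion_of_finite fun i => isClosed_iUnion_of_finite fun _ => hAc i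
  have hc2 : IsClosed D2 := by
    rw [hD2]
    exact isClosed_iUnion_of_finite fun i => isClosed_iUnion_of_finite fun _ => hAc i
  have hcov : {p : ℝ × ℝ | ¬ (p.2 = 0 ∧ 0 ≤ p.1)} ⊆ D1 ∪ D2 := by
    intro p _
    obtain ⟨i, hi, hmax⟩ := Set.exists_max_image {i | L i u = 1} (fun i => f i p)
      (Set.toFinite _) ⟨a, hau⟩
    by_cases hg : g i = g a
    · left
      rw [hD1]
      simp only [mem_iUnion]
      exact ⟨i, ⟨hi, hg⟩, fun j hj => hmax j hj⟩
    · right
      rw [hD2]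
      simp only [mem_iUnion]
      exact ⟨i, ⟨hi, hg⟩, fun j hj => hmax j hj⟩
  have hn1 : ({p : ℝ × ℝ | ¬ (p.2 = 0 ∧ 0 ≤ p.1)} ∩ D1).Nonempty := by
    refine ⟨(0, 1), fun h => one_ne_zero h.1, ?_⟩
    rw [hD1]
    simp only [mem_iUnion]
    refine ⟨a, ⟨hau, rfl⟩, fun j hj => ?_⟩
    simp only [hf, zero_mul, one_mul, zero_add, haw]
    rw [hw, map_sub, hj]
    linarith [hz j]
  have hn2 : ({p : ℝ × ℝ | ¬ (p.2 = 0 ∧ 0 ≤ p.1)} ∩ D2).Nonempty := by
    obtain ⟨α, β, γ, h⟩ := hrep (z' - u)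
    have hfj : ∀ j, L j u = 1 → f j (β, γ) = L j z' - 1 - α := by
      intro j hj
      have h1 := congrArg (L j) h
      simp only [map_add, map_smul, map_sub, hj, smul_eq_mul, mul_one] at h1
      simp only [hf]
      linarith
    have hγ : γ ≠ 0 := by
      intro h0
      rw [h0, zero_smul, add_zero] at h
      have h1 := congrArg (L b) h
      simp only [map_add, map_smul, map_sub, hbu, hbd, hbz, smul_eq_mul, mul_one, mul_zero,
        add_zero, sub_self] at h1
      rw [h1, zero_smul, zero_add] at h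
      exact hzd' β h.symm
    refine ⟨(β, γ), fun h => hγ h.1, ?_⟩
    rw [hD2]
    simp only [mem_iUnion]
    refine ⟨b, ⟨hbu, fun h => hne h.symm⟩, fun j hj => ?_⟩
    rw [hfj j hj, hfj b hbu, hbz]
    linarith [hz' j]
  obtain ⟨p, hp, hp1, hp2⟩ := isPreconnected_closed_iff.1 slit_preconnected D1 D2 hc1 hc2 hcov
    hn1 hn2
  rw [hD1] at hp1
  rw [hD2] at hp2
  simp only [mem_iUnion] at hp1 hp2
  obtain ⟨i, ⟨hi, hgi⟩, hip⟩ := hp1
  obtain ⟨j, ⟨hj, hgj⟩, hjp⟩ := hp2
  have hp : ¬ (p.2 = 0 ∧ 0 ≤ p.1) := hp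
  have hfij : f i p = f j p := le_antisymm (hjp i hi) (hip j hj)
  -- a small ε
  obtain ⟨ε, hε, hεp, hτ⟩ : ∃ ε : ℝ, 0 < ε ∧ (∀ k, L k u + ε * f k p ≤ 1 + ε * f i p) ∧
      0 < 1 + ε * f i p := by
    have h1 : ∀ᶠ ε : ℝ in 𝓝[>] 0, ∀ k, L k u + ε * f k p ≤ 1 + ε * f i p := by
      rw [eventually_all]
      intro k
      rcases (hu k).eq_or_lt with hk | hk
      · filter_upwards [self_mem_nhdsWithin] with ε hε
        have hε : 0 < ε := hε
        have := hip k hk
        rw [hk]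
        nlinarith
      · have hc : Continuous (fun ε : ℝ => L k u + ε * f k p - (1 + ε * f i p)) := by fun_prop
        have : ∀ᶠ ε : ℝ in 𝓝 0, L k u + ε * f k p - (1 + ε * f i p) < 0 :=
          hc.continuousAt.eventually_lt_const (by simp; linarith)
        filter_upwards [nhdsWithin_le_nhds this] with ε hε
        linarith
    have h2 : ∀ᶠ ε : ℝ in 𝓝[>] 0, 0 < 1 + ε * f i p := by
      have hc : Continuous (fun ε : ℝ => 1 + ε * f i p) := by fun_prop
      have : ∀ᶠ ε : ℝ in 𝓝 0, 0 < 1 + ε * f i p :=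
        hc.continuousAt.eventually_const_lt (by simp)
      exact nhdsWithin_le_nhds this
    obtain ⟨ε, ⟨h3, h4⟩, h5⟩ := ((h1.and h2).and self_mem_nhdsWithin).exists
    exact ⟨ε, h5, h3, h4⟩
  set τ := 1 + ε * f i p with hτd
  set y : E := τ⁻¹ • (u + ε • (p.1 • d + p.2 • w)) with hy
  have hLy : ∀ k, L k y = (L k u + ε * f k p) / τ := by
    intro k
    rw [hy, map_smul, map_add, map_smul, hfL, smul_eq_mul, smul_eq_mul]
    ring
  have hyb : ∀ k, L k y ≤ 1 := by
    intro k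
    rw [hLy, div_le_one hτ]
    exact hεp k
  have hyi : L i y = 1 := by rw [hLy, hi, div_self hτ.ne']
  have hyj : L j y = 1 := by rw [hLy, hj, ← hfij, div_self hτ.ne']
  have hyu : y ≠ u := by
    intro h
    have h1 : u + ε • (p.1 • d + p.2 • w) = τ • u := by
      have : τ • y = u + ε • (p.1 • d + p.2 • w) := by
        rw [hy, smul_smul, mul_inv_cancel₀ hτ.ne', one_smul]
      rw [← this, h]
    have h2 : (1 - τ) • u + (ε * p.1) • d + (ε * p.2) • w = 0 := by
      have : (1 - τ) • u + (ε * p.1) • d + (ε * p.2) • w = (u + ε • (p.1 • d + p.2 • w)) - τ • u := by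
        module
      rw [this, h1, sub_self]
    obtain ⟨-, h3, h4⟩ := ind _ _ _ h2
    apply hp
    refine ⟨(mul_eq_zero.1 h4).resolve_left hε.ne', ?_⟩
    rw [(mul_eq_zero.1 h3).resolve_left hε.ne']
  have hnot : L a y ≠ 1 ∨ L b y ≠ 1 := by
    by_contra hcon
    push Not at hcon
    obtain ⟨ha, hb⟩ := hcon
    have hfa : f a p = 0 := by simp only [hf, had, haw]; ring
    have hτ1 : τ = 1 := by
      rw [hLy, hau, hfa, mul_zero, add_zero, div_eq_one_iff_eq hτ.ne'] at ha
      exact ha.symm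
    have hfb : f b p = p.2 * L b w := by simp only [hf, hbd]; ring
    have hbw : p.2 * L b w = 0 := by
      rw [hLy, hbu, hτ1, div_one, hfb] at hb
      have : ε * (p.2 * L b w) = 0 := by linarith
      exact (mul_eq_zero.1 this).resolve_left hε.ne'
    rcases mul_eq_zero.1 hbw with h0 | h0
    · have hp1 : p.1 < 0 := by
        by_contra hc
        exact hp ⟨h0, not_lt.1 hc⟩
      apply hext (ε * p.1) (by nlinarith)
      have : y = u + (ε * p.1) • d := by
        rw [hy, hτ1, h0, inv_one, one_smul, zero_smul, add_zero, smul_smul]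
      rw [← this]
      exact hyb
    · apply hab
      ext x
      obtain ⟨α, β, γ, rfl⟩ := hrep x
      simp only [map_add, map_smul, hau, had, haw, hbu, hbd, h0]
  exact hgj ((H i j hi hj y hyu hyb hyi hyj hnot).symm.trans hgi)

end Pool.Agent.Q170.Panel
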